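import Mathlib

/-!
Existence of algebraically independent families of reals, and the affine part of the argument
that adding a vertex of degree at least four keeps generic global rigidity in three-space.
-/

namespace Pool.Agent.K7.H36.Sq

open Cardinal

/-- any finite type indexes an algebraically independent family of reals over the rationals -/
theorem exists_algInd (ι : Type) [Finite ι] : ∃ x : ι → ℝ, AlgebraicIndependent ℚ x := by
  obtain ⟨s, hs⟩ := exists_isTranscendenceBasis ℚ ℝ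
  have hinf : Infinite s := by
    by_contra hfin
    rw [not_infinite_iff_finite] at hfin
    have h1 : #ℝ ≤ max #(Algebra.adjoin ℚ (Set.range ((↑) : s → ℝ))) ℵ₀ := by
      have := hs.isAlgebraic
      exact Algebra.IsAlgebraic.cardinalMk_le_max _ _
    have h2 : #(Algebra.adjoin ℚ (Set.range ((↑) : s → ℝ))) = #(MvPolynomial s ℚ) :=
      (Cardinal.mk_congr hs.1.aevalEquiv.toEquiv).symm
    have h3 : #(MvPolynomial s ℚ) ≤ max (max #ℚ #s) ℵ₀ := MvPolynomial.cardinalMk_le_max
    have h4 : #ℚ ≤ ℵ₀ := by simp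
    have h5 : #s ≤ ℵ₀ := le_of_lt (Cardinal.lt_aleph0_of_finite s)
    have h6 : #ℝ ≤ ℵ₀ := by
      refine h1.trans (max_le ?_ le_rfl)
      rw [h2]
      exact h3.trans (max_le (max_le h4 h5) le_rfl)
    rw [Cardinal.mk_real] at h6
    exact absurd h6 (not_le.mpr Cardinal.aleph0_lt_continuum)
  obtain ⟨f⟩ : Nonempty (ι ↪ s) := by
    have := Fintype.ofFinite ι
    let e := Fintype.equivFin ι
    exact ⟨e.toEmbedding.trans ((Fin.valEmbedding).trans (Infinite.natEmbedding s))⟩
  exact ⟨fun i => ((f i : s) : ℝ), hs.1.comp f f.injective⟩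

abbrev E3 := EuclideanSpace ℝ (Fin 3)

open scoped RealInnerProductSpace

theorem inner_diff {x y z : E3} : ⟪x - z, y - z⟫ = (dist x z ^ 2 + dist y z ^ 2 - dist x y ^ 2) / 2 := by
  have h := norm_sub_sq_real (x - z) (y - z)
  rw [sub_sub_sub_cancel_right] at h
  rw [dist_eq_norm, dist_eq_norm, dist_eq_norm]
  linarith

theorem dist_diff {x y z : E3} : dist x y ^ 2 = dist x z ^ 2 + dist y z ^ 2 - 2 * ⟪x - z, y - z⟫ := by
  rw [inner_diff]; ring

/-- key linear algebra -/
theorem comb {n : ℕ} {e f : Fin n → E3} {X Y : E3} (c : Fin n → ℝ)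
    (hef : ∀ i j, ⟪f i, f j⟫ = ⟪e i, e j⟫) (hXe : ∀ i, ⟪Y, f i⟫ = ⟪X, e i⟫)
    (hXX : ⟪Y, Y⟫ = ⟪X, X⟫) (hX : X = ∑ i, c i • e i) : Y = ∑ i, c i • f i := by
  have h1 : ∀ (Z : E3) (g : Fin n → E3), ⟪Z - ∑ i, c i • g i, Z - ∑ i, c i • g i⟫ =
      ⟪Z, Z⟫ - 2 * (∑ i, c i * ⟪Z, g i⟫) + ∑ i, ∑ j, c i * (c j * ⟪g i, g j⟫) := by
    intro Z g
    rw [inner_sub_left, inner_sub_right, inner_sub_right, real_inner_comm Z (∑ i, c i • g i)]
    have h2 : ⟪Z, ∑ i, c i • g i⟫ = ∑ i, c i * ⟪Z, g i⟫ := by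
      rw [inner_sum]
      exact Finset.sum_congr rfl fun i _ => real_inner_smul_right _ _ _
    have h3 : ⟪∑ i, c i • g i, ∑ i, c i • g i⟫ = ∑ i, ∑ j, c i * (c j * ⟪g i, g j⟫) := by
      rw [sum_inner]
      refine Finset.sum_congr rfl fun i _ => ?_
      rw [inner_sum]
      refine Finset.sum_congr rfl fun j _ => ?_
      rw [real_inner_smul_left, real_inner_smul_right]
    rw [h2, h3]; ring
  have h4 : ⟪Y - ∑ i, c i • f i, Y - ∑ i, c i • f i⟫ = 0 := by
    rw [h1 Y f]
    simp only [hef, hXe, hXX]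
    rw [← h1 X e, ← hX]
    simp
  have h5 := inner_self_eq_zero.mp h4
  exact sub_eq_zero.mp h5

/-- points at known distances from four affinely spanning points are at known distances from
everything -/
theorem dist_ext {e f : Fin 3 → E3} {v w z v' w' z' : E3} (c : Fin 3 → ℝ)
    (hef : ∀ i j, ⟪f i - z', f j - z'⟫ = ⟪e i - z, e j - z⟫)
    (hw : ∀ i, ⟪w' - z', f i - z'⟫ = ⟪w - z, e i - z⟫)
    (hww : dist w' z' = dist w z)
    (hv : ∀ i, ⟪v' - z', f i - z'⟫ = ⟪v - z, e i - z⟫)
    (hvv : dist v' z' = dist v z)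
    (hc : w - z = ∑ i, c i • (e i - z)) : dist v' w' = dist v w := by
  have h1 : w' - z' = ∑ i, c i • (f i - z') := by
    refine comb c hef hw ?_ hc
    rw [real_inner_self_eq_norm_sq, real_inner_self_eq_norm_sq, ← dist_eq_norm, ← dist_eq_norm, hww]
  have h2 : ⟪v' - z', w' - z'⟫ = ⟪v - z, w - z⟫ := by
    rw [h1, hc, inner_sum, inner_sum]
    refine Finset.sum_congr rfl fun i _ => ?_
    rw [real_inner_smul_right, real_inner_smul_right, hv]
  have h3 : dist v' w' ^ 2 = dist v w ^ 2 := by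
    rw [dist_diff (x := v') (y := w') (z := z'), dist_diff (x := v) (y := w) (z := z), h2, hww, hvv]
  exact (sq_eq_sq₀ dist_nonneg dist_nonneg).mp h3

/-- four distinct points of a generic configuration span -/
theorem span_generic {V : Type*} {p : V → E3}
    (hp : AlgebraicIndependent ℚ (fun x : V × Fin 3 => p x.1 x.2))
    (a0 : V) (a : Fin 3 → V) (ha : Function.Injective a) (ha0 : ∀ i, a i ≠ a0) (w : E3) :
    ∃ c : Fin 3 → ℝ, w - p a0 = ∑ i, c i • (p (a i) - p a0) := by
  classical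
  let A : Matrix (Fin 3) (Fin 3) (MvPolynomial (V × Fin 3) ℚ) :=
    Matrix.of fun i j => MvPolynomial.X (a i, j) - MvPolynomial.X (a0, j)
  let B : Matrix (Fin 3) (Fin 3) ℝ := Matrix.of fun i j => p (a i) j - p a0 j
  have hAB : MvPolynomial.aeval (R := ℚ) (fun x : V × Fin 3 => p x.1 x.2) A.det = B.det := by
    rw [AlgHom.map_det]
    congr 1
    ext i j
    simp [A, B]
  have hA : A.det ≠ 0 := by
    intro h0
    let y : V × Fin 3 → ℚ := fun x => if ∃ i, a i = x.1 ∧ i = x.2 then 1 else 0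
    have h1 : MvPolynomial.aeval (R := ℚ) y A.det = 0 := by rw [h0]; simp
    rw [AlgHom.map_det] at h1
    have h2 : (MvPolynomial.aeval (R := ℚ) y).mapMatrix A = 1 := by
      ext i j
      have h3 : y (a0, j) = 0 := by
        simp only [y]
        rw [if_neg]
        rintro ⟨i, hi, _⟩
        exact ha0 i hi
      have h4 : y (a i, j) = if i = j then 1 else 0 := by
        simp only [y]
        congr 1
        apply propext
        constructor
        · rintro ⟨k, hk, hk2⟩
          rw [← hk2]; exact (ha hk).symm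
        · rintro rfl
          exact ⟨i, rfl, rfl⟩
      simp [A, Matrix.one_apply, h3, h4]
    rw [h2] at h1
    simp at h1
  have hB : B.det ≠ 0 := by
    intro h0
    rw [h0] at hAB
    exact hA ((injective_iff_map_eq_zero _).mp hp _ hAB)
  have hBu : IsUnit B.det := isUnit_iff_ne_zero.mpr hB
  refine ⟨Matrix.vecMul (fun j => w j - p a0 j) B⁻¹, ?_⟩
  have h5 : Matrix.vecMul (Matrix.vecMul (fun j => w j - p a0 j) B⁻¹) B = fun j => w j - p a0 j := by
    rw [Matrix.vecMul_vecMul, Matrix.nonsing_inv_mul _ hBu, Matrix.vecMul_one]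
  ext j
  have h6 := congrFun h5 j
  simp only [Matrix.vecMul, dotProduct, B, Matrix.of_apply] at h6 ⊢
  rw [PiLp.sub_apply, ← h6]
  simp

end Pool.Agent.K7.H36.Sq
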